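import Mathlib

set_option autoImplicit false

namespace Pool.Agent.Results.MP_314109_co.Disproof

/-- The set distance of the problem. -/
noncomputable def d {X : Type} [DecidableEq X] (A B : Finset X) : ℝ :=
  Real.sqrt (((A \ B).card : ℝ) ^ 2 + ((B \ A).card : ℝ) ^ 2)

def e (A B : Finset (Fin 5)) : ℕ := (A \ B).card ^ 2 + (B \ A).card ^ 2

lemma d_eq (A B : Finset (Fin 5)) : d A B = Real.sqrt (e A B) := by simp [d, e]

def A0 : Fin 4 → Finset (Fin 5) := ![{0, 1}, {0, 1, 2}, {3, 4}, {2, 3, 4}]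
def B0 : Fin 4 → Finset (Fin 5) := ![{0, 3}, {0, 2, 3}, {1, 4}, {1, 2, 4}]

def tA : Fin 4 → Fin 4 → ℕ := ![![0, 1, 8, 13], ![1, 0, 13, 8], ![8, 13, 0, 1], ![13, 8, 1, 0]]
def tC : Fin 4 → Fin 4 → ℕ := ![![2, 5, 2, 5], ![5, 2, 5, 2], ![2, 5, 2, 5], ![5, 2, 5, 2]]

lemma hA : ∀ i j, e (A0 i) (A0 j) = tA i j := by decide +kernel
lemma hB : ∀ i j, e (B0 i) (B0 j) = tA i j := by decide +kernel
lemma hC : ∀ i j, e (A0 i) (B0 j) = tC i j := by decide +kernel

theorem result :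
    ∃ (X : Type) (_ : Fintype X) (_ : DecidableEq X) (m : ℕ) (A B : Fin m → Finset X),
      1 ≤ m ∧ Function.Injective A ∧ Function.Injective B ∧
      ∑ i, ∑ j, d (A i) (B j) <
        (∑ i, ∑ j with i < j, d (A i) (A j)) + ∑ i, ∑ j with i < j, d (B i) (B j) := by
  refine ⟨Fin 5, inferInstance, inferInstance, 4, A0, B0, by norm_num, by decide +kernel,
    by decide +kernel, ?_⟩
  simp only [d_eq, hA, hB, hC, Finset.sum_filter, Fin.sum_univ_four]
  have h2 : Real.sqrt 2 < 1.4143 := by rw [Real.sqrt_lt' (by norm_num)]; norm_num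
  have h5 : Real.sqrt 5 < 2.2361 := by rw [Real.sqrt_lt' (by norm_num)]; norm_num
  have h8 : 2.828 < Real.sqrt 8 := by rw [Real.lt_sqrt (by norm_num)]; norm_num
  have h13 : 3.605 < Real.sqrt 13 := by rw [Real.lt_sqrt (by norm_num)]; norm_num
  simp [tA, tC]
  linarith

end Pool.Agent.Results.MP_314109_co.Disproof
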